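import Mathlib

/-!
From a recurrent sequence with few patterns to a transitive, null, not mean equicontinuous system.
-/

namespace Q33.ME

open Filter Topology

section

variable {X : Type} [MetricSpace X] [CompactSpace X] (T : X → X) (hT : Continuous T) (c : X → ℝ)
  (hc : Continuous c)

include hT hc

/-- Finitely many coordinates control the distance. -/
theorem near (hsep : ∀ x y, (∀ i, c (T^[i] x) = c (T^[i] y)) → x = y) (ε : ℝ) (hε : 0 < ε) :
    ∃ (J : ℕ) (ε1 : ℝ), 0 < ε1 ∧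
      ∀ x y, (∀ j ≤ J, |c (T^[j] x) - c (T^[j] y)| ≤ ε1) → dist x y < ε := by
  by_contra hcon
  push Not at hcon
  have h1 : ∀ n : ℕ, ∃ q : X × X, (∀ j ≤ n, |c (T^[j] q.1) - c (T^[j] q.2)| ≤ 1 / ((n : ℝ) + 1)) ∧
      ε ≤ dist q.1 q.2 := by
    intro n
    obtain ⟨x, y, h1, h2⟩ := hcon n (1 / ((n : ℝ) + 1)) (by positivity)
    exact ⟨(x, y), h1, h2⟩
  choose q hq1 hq2 using h1
  obtain ⟨a, φ, hφ, ha⟩ := CompactSpace.tendsto_subseq q
  have hcj : ∀ j, Continuous fun x => c (T^[j] x) := fun j => hc.comp (hT.iterate j)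
  have ha1 : Tendsto (fun n => (q (φ n)).1) atTop (𝓝 a.1) := (continuous_fst.tendsto a).comp ha
  have ha2 : Tendsto (fun n => (q (φ n)).2) atTop (𝓝 a.2) := (continuous_snd.tendsto a).comp ha
  have heq : a.1 = a.2 := by
    apply hsep
    intro j
    have l1 : Tendsto (fun n => |c (T^[j] (q (φ n)).1) - c (T^[j] (q (φ n)).2)|) atTop
        (𝓝 |c (T^[j] a.1) - c (T^[j] a.2)|) :=
      ((((hcj j).tendsto _).comp ha1).sub (((hcj j).tendsto _).comp ha2)).abs
    have l2 : Tendsto (fun n : ℕ => 1 / (((φ n : ℕ) : ℝ) + 1)) atTop (𝓝 0) :=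
      tendsto_one_div_add_atTop_nhds_zero_nat.comp hφ.tendsto_atTop
    have l3 : |c (T^[j] a.1) - c (T^[j] a.2)| ≤ 0 := by
      refine le_of_tendsto_of_tendsto l1 l2 ?_
      filter_upwards [eventually_ge_atTop j] with n hn
      exact hq1 (φ n) j (hn.trans (hφ.id_le n))
    have l4 := abs_nonpos_iff.mp l3
    linarith
  have l5 : Tendsto (fun n => dist (q (φ n)).1 (q (φ n)).2) atTop (𝓝 (dist a.1 a.2)) :=
    ha1.dist ha2
  have l6 : ε ≤ dist a.1 a.2 := ge_of_tendsto' l5 fun n => hq2 (φ n)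
  rw [heq, dist_self] at l6
  linarith

variable (x0 : X) (f : ℕ → ℝ) (hf : ∀ n, c (T^[n] x0) = f n)
  (hdense : ∀ U : Set X, IsOpen U → U.Nonempty → ∃ n, T^[n] x0 ∈ U)

include hf hdense

theorem c_nonneg (hf0 : ∀ n, 0 ≤ f n) (x : X) : 0 ≤ c x := by
  by_contra h
  push Not at h
  obtain ⟨n, hn⟩ := hdense (c ⁻¹' Set.Iio 0) (isOpen_Iio.preimage hc) ⟨x, h⟩
  have : c (T^[n] x0) < 0 := hn
  rw [hf] at this
  linarith [hf0 n]

/-- Transitivity. -/
theorem transitive (hsep : ∀ x y, (∀ i, c (T^[i] x) = c (T^[i] y)) → x = y)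
    (hrec : ∀ ε : ℝ, 0 < ε → ∀ J N0 : ℕ, ∃ N ≥ N0, ∀ j ≤ J, |f (N + j) - f j| < ε)
    (U V : Set X) (hU : IsOpen U) (hV : IsOpen V) (hU' : U.Nonempty) (hV' : V.Nonempty) :
    ∃ n : ℕ, 1 ≤ n ∧ (V ∩ T^[n] ⁻¹' U).Nonempty := by
  obtain ⟨m, hm⟩ := hdense V hV hV'
  obtain ⟨k, hk⟩ := hdense U hU hU'
  obtain ⟨ε, hε, hball⟩ := Metric.isOpen_iff.mp hU _ hk
  obtain ⟨J, ε1, hε1, hnear⟩ := near T hT c hc hsep ε hε
  obtain ⟨N, hN, hNj⟩ := hrec ε1 hε1 (k + J) (m + 1)
  have hx : T^[N + k] x0 ∈ U := by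
    apply hball
    rw [Metric.mem_ball]
    apply hnear
    intro j hj
    rw [← Function.iterate_add_apply, ← Function.iterate_add_apply, hf, hf]
    have := hNj (k + j) (by omega)
    have e1 : j + (N + k) = N + (k + j) := by ring
    have e2 : j + k = k + j := by ring
    rw [e1, e2]
    exact this.le
  refine ⟨N + k - m, by omega, T^[m] x0, hm, ?_⟩
  change T^[N + k - m] (T^[m] x0) ∈ U
  rw [← Function.iterate_add_apply]
  have : N + k - m + m = N + k := by omega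
  rw [this]
  exact hx

omit hT hc hdense hf [MetricSpace X] [CompactSpace X] in
/-- polynomials are eventually below exponentials. -/
theorem poly_le_exp (C m J : ℕ) (δ : ℝ) (hδ : 0 < δ) :
    ∀ᶠ n : ℕ in atTop, ((C * (2 * (n * (J + 1)) + 1) ^ m : ℕ) : ℝ) ≤ Real.exp (δ * n) := by
  set A : ℝ := 2 * (J + 1) + 1 with hA
  have hA0 : 0 < A := by positivity
  set D : ℝ := (C : ℝ) * A ^ m / δ ^ m + 1 with hD
  have hD0 : 0 < D := by positivity
  have h1 := (Real.isLittleO_pow_exp_atTop (n := m)).def (show 0 < 1 / D by positivity)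
  have h2 : Tendsto (fun n : ℕ => δ * (n : ℝ)) atTop atTop :=
    tendsto_natCast_atTop_atTop.const_mul_atTop hδ
  filter_upwards [h2.eventually h1, eventually_ge_atTop 1] with n hn hn1
  have hn1' : (1 : ℝ) ≤ n := by exact_mod_cast hn1
  rw [Real.norm_of_nonneg (by positivity), Real.norm_of_nonneg (Real.exp_pos _).le] at hn
  have h3 : ((C * (2 * (n * (J + 1)) + 1) ^ m : ℕ) : ℝ) ≤ C * (A * n) ^ m := by
    push_cast
    have : (2 * ((n : ℝ) * (J + 1)) + 1) ≤ A * n := by rw [hA]; nlinarith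
    gcongr
  have h4 : (C : ℝ) * (A * n) ^ m = (C * A ^ m / δ ^ m) * (δ * n) ^ m := by
    rw [mul_pow, mul_pow]
    field_simp
  have h5 : (C * A ^ m / δ ^ m) * (δ * n) ^ m ≤ D * (δ * n) ^ m := by
    have : 0 ≤ (δ * (n : ℝ)) ^ m := by positivity
    rw [hD]
    nlinarith
  have h6 : D * (δ * n) ^ m ≤ D * (1 / D * Real.exp (δ * n)) :=
    mul_le_mul_of_nonneg_left hn hD0.le
  have h7 : D * (1 / D * Real.exp (δ * n)) = Real.exp (δ * n) := by
    rw [← mul_assoc, mul_one_div_cancel hD0.ne', one_mul]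
  linarith

/-- Nullness. -/
theorem null (hsep : ∀ x y, (∀ i, c (T^[i] x) = c (T^[i] y)) → x = y)
    (hpat : ∀ ε : ℝ, 0 < ε → ∃ C m : ℕ, ∀ (n : ℕ) (p : Fin n → ℕ) (t : X → ℕ) (F : Finset X),
      (∀ a ∈ F, ∀ b ∈ F, a ≠ b → ∃ i, ε ≤ |f (t a + p i) - f (t b + p i)|) →
      F.card ≤ C * (2 * n + 1) ^ m)
    (a : ℕ → ℕ) (ε : ℝ) (hε : 0 < ε) (δ : ℝ) (hδ : 0 < δ) :
    ∀ᶠ n in atTop, ∀ F : Finset X,
      (∀ x ∈ F, ∀ y ∈ F, x ≠ y → ∃ i < n, ε ≤ dist (T^[a i] x) (T^[a i] y)) →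
      (F.card : ℝ) ≤ Real.exp (δ * n) := by
  obtain ⟨J, ε1, hε1, hnear⟩ := near T hT c hc hsep ε hε
  obtain ⟨C, m, hCm⟩ := hpat (ε1 / 2) (by positivity)
  filter_upwards [poly_le_exp C m J δ hδ] with n hn F hF
  refine le_trans ?_ hn
  have hcj : ∀ j, Continuous fun x => c (T^[j] x) := fun j => hc.comp (hT.iterate j)
  -- approximate by orbit points
  have happ : ∀ x : X, ∃ t : ℕ, ∀ i < n, ∀ j ≤ J,
      |f (t + (a i + j)) - c (T^[a i + j] x)| < ε1 / 4 := by
    intro x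
    have hopen : IsOpen (⋂ i ∈ Finset.range n, ⋂ j ∈ Finset.range (J + 1),
        {z : X | |c (T^[a i + j] z) - c (T^[a i + j] x)| < ε1 / 4}) := by
      apply isOpen_biInter_finset
      intro i _
      apply isOpen_biInter_finset
      intro j _
      exact isOpen_lt (((hcj _).sub continuous_const).abs) continuous_const
    obtain ⟨t, ht⟩ := hdense _ hopen ⟨x, by
      simp only [Set.mem_iInter]
      intro i _ j _
      change |c (T^[a i + j] x) - c (T^[a i + j] x)| < ε1 / 4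
      rw [sub_self, abs_zero]
      positivity⟩
    refine ⟨t, fun i hi j hj => ?_⟩
    simp only [Set.mem_iInter] at ht
    have := ht i (Finset.mem_range.mpr hi) j (Finset.mem_range.mpr (Nat.lt_succ_of_le hj))
    change |c (T^[a i + j] (T^[t] x0)) - c (T^[a i + j] x)| < ε1 / 4 at this
    rw [← Function.iterate_add_apply, hf] at this
    rw [add_comm t]
    exact this
  choose t ht using happ
  have := hCm (n * (J + 1)) (fun k => a (finProdFinEquiv.symm k).1 +
    ((finProdFinEquiv.symm k).2 : ℕ)) t F (by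
      intro x hx y hy hxy
      obtain ⟨i, hi, hdist⟩ := hF x hx y hy hxy
      obtain ⟨j, hj, hbig⟩ : ∃ j ≤ J, ε1 < |c (T^[j] (T^[a i] x)) - c (T^[j] (T^[a i] y))| := by
        by_contra hcon
        push Not at hcon
        have := hnear _ _ hcon
        linarith
      refine ⟨finProdFinEquiv (⟨i, hi⟩, ⟨j, Nat.lt_succ_of_le hj⟩), ?_⟩
      rw [Equiv.symm_apply_apply]
      change ε1 / 2 ≤ |f (t x + (a i + j)) - f (t y + (a i + j))|
      rw [← Function.iterate_add_apply, ← Function.iterate_add_apply, add_comm j] at hbig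
      have h1 := ht x i hi j hj
      have h2 := ht y i hi j hj
      have h3 : |c (T^[a i + j] x) - c (T^[a i + j] y)| ≤
          |f (t x + (a i + j)) - c (T^[a i + j] x)| +
          |f (t x + (a i + j)) - f (t y + (a i + j))| +
          |f (t y + (a i + j)) - c (T^[a i + j] y)| := by
        have e : c (T^[a i + j] x) - c (T^[a i + j] y) =
            -(f (t x + (a i + j)) - c (T^[a i + j] x)) +
            (f (t x + (a i + j)) - f (t y + (a i + j))) +
            (f (t y + (a i + j)) - c (T^[a i + j] y)) := by ring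
        rw [e]
        refine (abs_add_le _ _).trans (add_le_add ((abs_add_le _ _).trans ?_) le_rfl)
        rw [abs_neg]
      linarith)
  exact_mod_cast this

/-- Failure of mean equicontinuity. -/
theorem not_mean (hsep : ∀ x y, (∀ i, c (T^[i] x) = c (T^[i] y)) → x = y)
    (hf0 : ∀ n, 0 ≤ f n) (hf1 : ∀ n, f n ≤ 1)
    (hzero : ∀ ε : ℝ, 0 < ε → ∀ J : ℕ, ∃ n, ∀ j ≤ J, f (n + j) < ε)
    (havg : ∀ N0 : ℕ, ∃ N ≥ N0, (N : ℝ) / 8 ≤ ∑ i ∈ Finset.range N, f i) :
    ¬ ∀ ε : ℝ, 0 < ε → ∃ δ : ℝ, 0 < δ ∧ ∀ x y : X, dist x y < δ →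
        ∀ᶠ n in atTop,
          (∑ i ∈ Finset.range n, dist (T^[i] x) (T^[i] y)) / (n : ℝ) < ε := by
  classical
  intro hmean
  have hcj : ∀ j, Continuous fun x => c (T^[j] x) := fun j => hc.comp (hT.iterate j)
  -- the zero point
  obtain ⟨z, hz⟩ : ∃ z, ∀ j, c (T^[j] z) = 0 := by
    have h1 : ∀ n : ℕ, ∃ k, ∀ j ≤ n, f (k + j) < 1 / ((n : ℝ) + 1) := fun n =>
      hzero _ (by positivity) n
    choose k hk using h1
    obtain ⟨z, φ, hφ, hz⟩ := CompactSpace.tendsto_subseq (fun n => T^[k n] x0)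
    refine ⟨z, fun j => ?_⟩
    have l1 : Tendsto (fun n => c (T^[j] (T^[k (φ n)] x0))) atTop (𝓝 (c (T^[j] z))) :=
      ((hcj j).tendsto _).comp hz
    have l2 : Tendsto (fun n : ℕ => 1 / (((φ n : ℕ) : ℝ) + 1)) atTop (𝓝 0) :=
      tendsto_one_div_add_atTop_nhds_zero_nat.comp hφ.tendsto_atTop
    have l3 : c (T^[j] z) ≤ 0 := by
      refine le_of_tendsto_of_tendsto l1 l2 ?_
      filter_upwards [eventually_ge_atTop j] with n hn
      rw [← Function.iterate_add_apply, hf, add_comm]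
      exact (hk (φ n) j (hn.trans (hφ.id_le n))).le
    exact le_antisymm l3 (c_nonneg T hT c hc x0 f hf hdense hf0 _)
  -- uniform continuity of c
  obtain ⟨ρ, hρ, hρ'⟩ : ∃ ρ > 0, ∀ x y : X, dist x y < ρ → dist (c x) (c y) < 1 / 16 := by
    have huc := CompactSpace.uniformContinuous_of_continuous hc
    obtain ⟨ρ, hρ, h⟩ := Metric.uniformContinuous_iff.mp huc (1 / 16) (by norm_num)
    exact ⟨ρ, hρ, fun x y hxy => h hxy⟩
  obtain ⟨δ, hδ, hδ'⟩ := hmean (ρ / 32) (by positivity)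
  obtain ⟨J, ε1, hε1, hnear⟩ := near T hT c hc hsep δ hδ
  obtain ⟨n, hn⟩ := hzero ε1 hε1 J
  have hclose : dist (T^[n] x0) z < δ := by
    apply hnear
    intro j hj
    rw [← Function.iterate_add_apply, hf, hz, sub_zero, add_comm, abs_of_nonneg (hf0 _)]
    exact (hn j hj).le
  obtain ⟨N1, hN1⟩ := eventually_atTop.mp (hδ' _ _ hclose)
  obtain ⟨N, hN, hNavg⟩ := havg (max N1 (32 * n + 1))
  have hNN1 : N1 ≤ N := (le_max_left _ _).trans hN
  have hNn : 32 * n + 1 ≤ N := (le_max_right _ _).trans hN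
  have hlt := hN1 N hNN1
  have hNpos : (0 : ℝ) < N := by
    have : 0 < N := by omega
    exact_mod_cast this
  rw [div_lt_iff₀ hNpos] at hlt
  -- lower bound
  have hterm : ∀ i, ρ * (f (n + i) - 1 / 16) ≤ dist (T^[i] (T^[n] x0)) (T^[i] z) := by
    intro i
    by_cases hd : dist (T^[i] (T^[n] x0)) (T^[i] z) < ρ
    · have h1 := hρ' _ _ hd
      rw [← Function.iterate_add_apply, hf, hz, Real.dist_eq, sub_zero,
        abs_of_nonneg (hf0 _), add_comm] at h1
      have : ρ * (f (n + i) - 1 / 16) ≤ 0 :=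
        mul_nonpos_of_nonneg_of_nonpos hρ.le (by linarith)
      exact this.trans dist_nonneg
    · push Not at hd
      have : ρ * (f (n + i) - 1 / 16) ≤ ρ * 1 :=
        mul_le_mul_of_nonneg_left (by linarith [hf1 (n + i)]) hρ.le
      linarith
  have hsum : ∑ i ∈ Finset.range N, ρ * (f (n + i) - 1 / 16) ≤
      ∑ i ∈ Finset.range N, dist (T^[i] (T^[n] x0)) (T^[i] z) :=
    Finset.sum_le_sum fun i _ => hterm i
  rw [← Finset.mul_sum, Finset.sum_sub_distrib] at hsum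
  have hshift : ∑ i ∈ Finset.range N, f i - n ≤ ∑ i ∈ Finset.range N, f (n + i) := by
    have h1 : ∑ i ∈ Finset.range (n + N), f i =
        ∑ i ∈ Finset.range n, f i + ∑ i ∈ Finset.range N, f (n + i) :=
      Finset.sum_range_add f n N
    have h2 : ∑ i ∈ Finset.range N, f i ≤ ∑ i ∈ Finset.range (n + N), f i :=
      Finset.sum_le_sum_of_subset_of_nonneg (Finset.range_mono (by omega))
        fun i _ _ => hf0 i
    have h3 : ∑ i ∈ Finset.range n, f i ≤ n := by
      calc ∑ i ∈ Finset.range n, f i ≤ ∑ i ∈ Finset.range n, (1 : ℝ) :=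
            Finset.sum_le_sum fun i _ => hf1 i
        _ = n := by simp
    linarith
  have hconst : ∑ i ∈ Finset.range N, (1 / 16 : ℝ) = N / 16 := by
    rw [Finset.sum_const, Finset.card_range, nsmul_eq_mul]; ring
  rw [hconst] at hsum
  have hn32 : (32 * (n : ℝ)) ≤ N := by
    have : 32 * n ≤ N := by omega
    exact_mod_cast this
  have hfin : (N : ℝ) / 32 ≤ ∑ i ∈ Finset.range N, f (n + i) - N / 16 := by linarith
  have := mul_le_mul_of_nonneg_left hfin hρ.le
  nlinarith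

end

end Q33.ME
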