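import Pool.Agent.Q33.ME.Slow

/-!
A recurrent unbounded cocycle in a Hilbert space.
-/

namespace Q33.ME

open Filter Topology

/-- the Hilbert space -/
abbrev H : Type := lp (fun _ : ℕ => ℂ) 2

/-- the coordinates -/
noncomputable def coef (n : ℤ) (k : ℕ) : ℂ :=
  ((1 / Real.sqrt (k + 1) : ℝ) : ℂ) *
    (Complex.exp (Complex.I * ((2 * Real.pi * n / 4 ^ k : ℝ) : ℂ)) - 1)

theorem norm_coef_sq (n : ℤ) (k : ℕ) :
    ‖coef n k‖ ^ 2 = 4 / (k + 1) * Real.sin (Real.pi * n / 4 ^ k) ^ 2 := by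
  unfold coef
  rw [norm_mul, Complex.norm_exp_I_mul_ofReal_sub_one, Complex.norm_real, mul_pow,
    Real.norm_eq_abs, Real.norm_eq_abs, sq_abs, sq_abs, div_pow, Real.sq_sqrt (by positivity)]
  have e : 2 * Real.pi * (n : ℝ) / 4 ^ k / 2 = Real.pi * n / 4 ^ k := by ring
  rw [e]
  ring

theorem coef_zero (k : ℕ) : coef 0 k = 0 := by
  unfold coef
  simp

theorem coef_sub (n m : ℤ) (k : ℕ) : ‖coef n k - coef m k‖ = ‖coef (n - m) k‖ := by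
  have e : coef n k - coef m k =
      Complex.exp (((2 * Real.pi * m / 4 ^ k : ℝ) : ℂ) * Complex.I) * coef (n - m) k := by
    unfold coef
    have e1 : Complex.exp (Complex.I * ((2 * Real.pi * n / 4 ^ k : ℝ) : ℂ)) =
        Complex.exp (((2 * Real.pi * m / 4 ^ k : ℝ) : ℂ) * Complex.I) *
        Complex.exp (Complex.I * ((2 * Real.pi * ((n - m : ℤ) : ℝ) / 4 ^ k : ℝ) : ℂ)) := by
      rw [← Complex.exp_add]
      congr 1
      push_cast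
      ring
    rw [e1, mul_comm (((2 * Real.pi * m / 4 ^ k : ℝ) : ℂ)) Complex.I]
    ring
  rw [e, norm_mul, Complex.norm_exp_ofReal_mul_I, one_mul]

theorem sin_sq_le_sq (x : ℝ) : Real.sin x ^ 2 ≤ x ^ 2 := by
  rw [← sq_abs (Real.sin x), ← sq_abs x]
  exact pow_le_pow_left₀ (abs_nonneg _) Real.abs_sin_le_abs 2

theorem coef_le (n : ℤ) (k : ℕ) :
    ‖coef n k‖ ^ 2 ≤ (4 * (Real.pi * n) ^ 2) * (1 / 16) ^ k := by
  rw [norm_coef_sq]
  have h1 := sin_sq_le_sq (Real.pi * n / 4 ^ k)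
  have h2 : (4 : ℝ) / (k + 1) ≤ 4 := by
    rw [div_le_iff₀ (by positivity)]
    have : (0 : ℝ) ≤ k := Nat.cast_nonneg k
    linarith
  have h3 : (Real.pi * n / 4 ^ k) ^ 2 = (Real.pi * n) ^ 2 * (1 / 16) ^ k := by
    rw [div_pow, ← pow_mul, mul_comm k 2, pow_mul, one_div, inv_pow]
    norm_num
    rfl
  calc 4 / ((k : ℝ) + 1) * Real.sin (Real.pi * n / 4 ^ k) ^ 2
      ≤ 4 * (Real.pi * n / 4 ^ k) ^ 2 :=
        mul_le_mul h2 h1 (by positivity) (by norm_num)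
    _ = (4 * (Real.pi * n) ^ 2) * (1 / 16) ^ k := by rw [h3]; ring

theorem summable_coef (n : ℤ) : Summable fun k => ‖coef n k‖ ^ 2 :=
  Summable.of_nonneg_of_le (fun k => by positivity) (coef_le n)
    ((summable_geometric_of_lt_one (by norm_num) (by norm_num)).mul_left _)

/-- the cocycle -/
noncomputable def bb (n : ℤ) : H :=
  ⟨coef n, memℓp_gen (by
    have := summable_coef n
    simpa using this)⟩

theorem bb_apply (n : ℤ) (k : ℕ) : (bb n : ℕ → ℂ) k = coef n k := rfl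

theorem H_norm_sq (v : H) : ‖v‖ ^ 2 = ∑' k, ‖v k‖ ^ 2 := by
  have h := lp.norm_rpow_eq_tsum (p := 2) (by norm_num) v
  simpa using h

theorem bb_norm_sq (n : ℤ) : ‖bb n‖ ^ 2 = ∑' k, ‖coef n k‖ ^ 2 := H_norm_sq (bb n)

theorem bb_zero : bb 0 = 0 := by
  ext k
  rw [bb_apply, coef_zero]
  rfl

theorem bb_inv (n m : ℤ) : ‖bb n - bb m‖ = ‖bb (n - m)‖ := by
  have h : ‖bb n - bb m‖ ^ 2 = ‖bb (n - m)‖ ^ 2 := by
    rw [H_norm_sq, H_norm_sq]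
    congr 1
    ext k
    rw [lp.coeFn_sub, Pi.sub_apply, bb_apply, bb_apply, bb_apply, coef_sub]
  exact (pow_left_inj₀ (norm_nonneg _) (norm_nonneg _) two_ne_zero).mp h

/-- the numbers `(4 ^ K - 1) / 3` -/
def aa : ℕ → ℕ
  | 0 => 0
  | K + 1 => 4 * aa K + 1

theorem aa_eq (K : ℕ) : 3 * aa K + 1 = 4 ^ K := by
  induction K with
  | zero => rfl
  | succ K ih => rw [aa, pow_succ]; omega

theorem aa_add (k j : ℕ) : aa (k + j) = aa k + 4 ^ k * aa j := by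
  have h1 := aa_eq (k + j)
  have h2 := aa_eq k
  have h3 := aa_eq j
  have h4 : 4 ^ (k + j) = 4 ^ k * (3 * aa j + 1) := by rw [pow_add, h3]
  have h5 : 4 ^ k * (3 * aa j + 1) = 3 * (4 ^ k * aa j) + 4 ^ k := by ring
  omega

theorem aa_sin (K k : ℕ) (hk : 1 ≤ k) (hkK : k ≤ K) :
    1 / 2 ≤ Real.sin (Real.pi * ((aa K : ℕ) : ℤ) / 4 ^ k) ^ 2 := by
  obtain ⟨j, rfl⟩ := Nat.exists_eq_add_of_le hkK
  have h4 : (4 : ℝ) ^ k ≠ 0 := by positivity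
  have h0 : (((aa (k + j) : ℕ) : ℤ) : ℝ) = (aa k : ℝ) + 4 ^ k * (aa j : ℝ) := by
    have := aa_add k j
    rw [this]; push_cast; ring
  have e : Real.pi * (((aa (k + j) : ℕ) : ℤ) : ℝ) / 4 ^ k =
      Real.pi * (aa k : ℝ) / 4 ^ k + (aa j : ℕ) * Real.pi := by
    rw [h0]
    field_simp
  rw [e, Real.sin_add_nat_mul_pi, mul_pow, ← pow_mul, mul_comm (aa j) 2, pow_mul]
  norm_num
  have h1 : (3 * (aa k : ℝ) + 1) = 4 ^ k := by exact_mod_cast aa_eq k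
  have h2 : (4 : ℝ) ≤ 4 ^ k := by
    calc (4 : ℝ) = 4 ^ 1 := by norm_num
      _ ≤ 4 ^ k := pow_le_pow_right₀ (by norm_num) hk
  have hpi := Real.pi_pos
  have h3 : Real.pi / 2 ≤ 2 * (Real.pi * (aa k : ℝ) / 4 ^ k) := by
    have : 1 / 4 ≤ (aa k : ℝ) / 4 ^ k := by
      rw [le_div_iff₀ (by positivity)]
      linarith
    have e2 : 2 * (Real.pi * (aa k : ℝ) / 4 ^ k) = 2 * Real.pi * ((aa k : ℝ) / 4 ^ k) := by ring
    rw [e2]; nlinarith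
  have h5 : 2 * (Real.pi * (aa k : ℝ) / 4 ^ k) ≤ Real.pi + Real.pi / 2 := by
    have : (aa k : ℝ) / 4 ^ k ≤ 1 / 3 := by
      rw [div_le_iff₀ (by positivity)]
      linarith
    have e2 : 2 * (Real.pi * (aa k : ℝ) / 4 ^ k) = 2 * Real.pi * ((aa k : ℝ) / 4 ^ k) := by ring
    rw [e2]; nlinarith
  have h6 := Real.cos_nonpos_of_pi_div_two_le_of_le h3 h5
  have h7 := Real.cos_two_mul (Real.pi * (aa k : ℝ) / 4 ^ k)
  have h8 := Real.sin_sq_add_cos_sq (Real.pi * (aa k : ℝ) / 4 ^ k)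
  linarith

theorem bb_unbdd (B : ℝ) : ∃ n : ℕ, B ≤ ‖bb n‖ := by
  have hlim := Real.tendsto_sum_range_one_div_nat_succ_atTop
  obtain ⟨K, hK⟩ := (hlim.eventually (eventually_ge_atTop (B ^ 2))).exists
  refine ⟨aa K, ?_⟩
  apply le_of_sq_le_sq _ (norm_nonneg _)
  rw [bb_norm_sq]
  have h1 : ∑ k ∈ Finset.range (K + 1), ‖coef ((aa K : ℕ) : ℤ) k‖ ^ 2 ≤
      ∑' k, ‖coef ((aa K : ℕ) : ℤ) k‖ ^ 2 :=
    (summable_coef _).sum_le_tsum _ fun k _ => by positivity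
  refine le_trans ?_ h1
  rw [Finset.sum_range_succ']
  have h2 : ∑ i ∈ Finset.range K, (1 / ((i : ℝ) + 1)) ≤
      ∑ k ∈ Finset.range K, ‖coef ((aa K : ℕ) : ℤ) (k + 1)‖ ^ 2 := by
    apply Finset.sum_le_sum
    intro i hi
    rw [Finset.mem_range] at hi
    rw [norm_coef_sq]
    have h3 := aa_sin K (i + 1) (by omega) (by omega)
    have h5 : (0 : ℝ) ≤ i := Nat.cast_nonneg i
    calc 1 / ((i : ℝ) + 1) ≤ 4 / (((i + 1 : ℕ) : ℝ) + 1) * (1 / 2) := by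
          push_cast
          rw [div_mul_eq_mul_div, div_le_div_iff₀ (by positivity) (by positivity)]
          nlinarith
      _ ≤ _ := mul_le_mul_of_nonneg_left h3 (by positivity)
  have h4 : 0 ≤ ‖coef ((aa K : ℕ) : ℤ) 0‖ ^ 2 := by positivity
  linarith

theorem coef_pow_small (K k : ℕ) (hk : k ≤ K) : ‖coef ((4 ^ K : ℕ) : ℤ) k‖ ^ 2 = 0 := by
  obtain ⟨j, rfl⟩ := Nat.exists_eq_add_of_le hk
  rw [norm_coef_sq]
  have e : Real.pi * (((4 ^ (k + j) : ℕ) : ℤ) : ℝ) / 4 ^ k = ((4 ^ j : ℕ) : ℝ) * Real.pi := by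
    push_cast
    rw [pow_add]
    field_simp
  rw [e, Real.sin_nat_mul_pi]
  ring

theorem coef_pow_large (K j : ℕ) : ‖coef ((4 ^ K : ℕ) : ℤ) (j + (K + 1))‖ ^ 2 ≤
    64 / (K + 1) * (1 / 16) ^ j := by
  rw [norm_coef_sq]
  have h1 := sin_sq_le_sq (Real.pi * (((4 ^ K : ℕ) : ℤ) : ℝ) / 4 ^ (j + (K + 1)))
  have hpi := Real.pi_le_four
  have hpi0 := Real.pi_pos
  have h3 : (Real.pi * (((4 ^ K : ℕ) : ℤ) : ℝ) / 4 ^ (j + (K + 1))) ^ 2 ≤ (1 / 16) ^ j := by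
    have e : Real.pi * (((4 ^ K : ℕ) : ℤ) : ℝ) / 4 ^ (j + (K + 1)) = (Real.pi / 4) * (1 / 4) ^ j := by
      push_cast
      rw [pow_add, pow_succ, one_div, inv_pow]
      field_simp
    rw [e, mul_pow, ← pow_mul, mul_comm j 2, pow_mul]
    have h5 : (Real.pi / 4) ^ 2 ≤ 1 := by nlinarith
    have h6 : ((1 / 4 : ℝ) ^ 2) = 1 / 16 := by norm_num
    rw [h6]
    have h7 : (0 : ℝ) ≤ (1 / 16) ^ j := by positivity
    nlinarith
  have h4 : (4 : ℝ) / (((j + (K + 1) : ℕ) : ℝ) + 1) ≤ 64 / (K + 1) := by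
    rw [div_le_div_iff₀ (by positivity) (by positivity)]
    push_cast
    have h5 : (0 : ℝ) ≤ j := Nat.cast_nonneg j
    have h6 : (0 : ℝ) ≤ K := Nat.cast_nonneg K
    nlinarith
  exact mul_le_mul h4 (h1.trans h3) (by positivity) (by positivity)

theorem bb_recu (ε : ℝ) (hε : 0 < ε) (N0 : ℕ) : ∃ N : ℕ, N0 ≤ N ∧ ‖bb N‖ < ε := by
  obtain ⟨K0, hK0⟩ := exists_nat_gt (128 / ε ^ 2)
  obtain ⟨K, hKN, hKK⟩ : ∃ K, N0 ≤ K ∧ K0 ≤ K := ⟨max N0 K0, le_max_left _ _, le_max_right _ _⟩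
  refine ⟨4 ^ K, hKN.trans (Nat.lt_pow_self (by norm_num)).le, ?_⟩
  apply lt_of_pow_lt_pow_left₀ 2 hε.le
  rw [bb_norm_sq]
  rw [← (summable_coef _).sum_add_tsum_nat_add (K + 1)]
  have h1 : ∑ i ∈ Finset.range (K + 1), ‖coef ((4 ^ K : ℕ) : ℤ) i‖ ^ 2 = 0 := by
    apply Finset.sum_eq_zero
    intro i hi
    rw [Finset.mem_range] at hi
    exact coef_pow_small K i (by omega)
  rw [h1, zero_add]
  have hgeo : HasSum (fun j : ℕ => (64 / ((K : ℝ) + 1)) * (1 / 16) ^ j)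
      ((64 / ((K : ℝ) + 1)) * (1 - 1 / 16)⁻¹) :=
    (hasSum_geometric_of_lt_one (by norm_num) (by norm_num)).mul_left _
  have h2 : ∑' j, ‖coef ((4 ^ K : ℕ) : ℤ) (j + (K + 1))‖ ^ 2 ≤
      (64 / ((K : ℝ) + 1)) * (1 - 1 / 16)⁻¹ := by
    rw [← hgeo.tsum_eq]
    apply Summable.tsum_le_tsum (coef_pow_large K) _ hgeo.summable
    exact (summable_nat_add_iff (f := fun k => ‖coef ((4 ^ K : ℕ) : ℤ) k‖ ^ 2) (K + 1)).mpr
      (summable_coef ((4 ^ K : ℕ) : ℤ))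
  refine lt_of_le_of_lt h2 ?_
  have hK1 : (K0 : ℝ) ≤ K := by exact_mod_cast hKK
  have hKpos : (0 : ℝ) < (K : ℝ) + 1 := by positivity
  have h3 : (64 / ((K : ℝ) + 1)) * (1 - 1 / 16)⁻¹ ≤ 128 / ((K : ℝ) + 1) := by
    have e : (64 / ((K : ℝ) + 1)) * (1 - 1 / 16)⁻¹ = (1024 / 15) / ((K : ℝ) + 1) := by
      norm_num
      field_simp
      norm_num
    rw [e]
    apply div_le_div_of_nonneg_right (by norm_num) hKpos.le
  refine lt_of_le_of_lt h3 ?_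
  rw [div_lt_iff₀ hKpos]
  rw [div_lt_iff₀ (by positivity)] at hK0
  nlinarith [sq_nonneg ε, pow_pos hε 2]

theorem coc_bb : Coc bb := ⟨bb_zero, bb_inv, bb_unbdd, bb_recu⟩

end Q33.ME
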