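import Mathlib

/-!
Counting the patterns `(g (‖p i - y‖ ^ 2))_i` of points `y` of a real inner product space relative
to `n` given points `p i`, for slowly varying `g`.
-/

namespace Q33.ME

open scoped RealInnerProductSpace

variable {E : Type*} [NormedAddCommGroup E] [InnerProductSpace ℝ E]

/-- one step of the code. -/
noncomputable def step {ι : Type*} (η : ℝ) (v : ι → E) : Option (ι × Bool) → E
  | none => 0
  | some (i, true) => (η / ‖v i‖ ^ 2) • v i
  | some (i, false) => -((η / ‖v i‖ ^ 2) • v i)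

/-- Greedy approximation: a vector is determined, up to small inner products with the `v i`, by a
short code. -/
theorem greedy {ι : Type*} {η R : ℝ} (hη : 0 < η) (v : ι → E) (I : Set ι)
    (hv : ∀ i ∈ I, ‖v i‖ ≤ R) (m : ℕ) :
    ∀ w : E, ‖w‖ ^ 2 ≤ m * (η ^ 2 / R ^ 2) →
      ∃ c : Fin m → Option (ι × Bool), ∀ i ∈ I, |⟪v i, w - ∑ j, step η v (c j)⟫| ≤ η := by
  induction m with
  | zero =>
    intro w hw
    refine ⟨fun j => j.elim0, fun i _ => ?_⟩
    have h0 : ‖w‖ ^ 2 ≤ 0 := by simpa using hw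
    have h1 : w = 0 := by
      rw [← norm_eq_zero]
      have := sq_nonneg ‖w‖
      exact pow_eq_zero_iff (two_ne_zero) |>.mp (le_antisymm h0 this)
    subst h1
    simp [hη.le]
  | succ m ih =>
    intro w hw
    by_cases hall : ∀ i ∈ I, |⟪v i, w⟫| ≤ η
    · refine ⟨fun _ => none, fun i hi => ?_⟩
      have : ∑ j : Fin (m + 1), step η v ((fun _ => none : Fin (m + 1) → Option (ι × Bool)) j) = 0 :=
        Finset.sum_eq_zero fun j _ => rfl
      rw [this, sub_zero]
      exact hall i hi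
    · push Not at hall
      obtain ⟨i, hi, hbig⟩ := hall
      have hvi : v i ≠ 0 := by
        intro h0
        rw [h0, inner_zero_left, abs_zero] at hbig
        linarith
      have hnv : 0 < ‖v i‖ := norm_pos_iff.mpr hvi
      have hnv2 : 0 < ‖v i‖ ^ 2 := by positivity
      -- the sign
      obtain ⟨b, hb⟩ : ∃ b : Bool, ‖w - step η v (some (i, b))‖ ^ 2 ≤ m * (η ^ 2 / R ^ 2) := by
        have hle : η ^ 2 / R ^ 2 ≤ η ^ 2 / ‖v i‖ ^ 2 := by
          apply div_le_div_of_nonneg_left (by positivity) hnv2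
          have := hv i hi
          exact pow_le_pow_left₀ hnv.le this 2
        have key : ∀ s : ℝ, s ^ 2 = 1 → s * ⟪v i, w⟫ = |⟪v i, w⟫| →
            ‖w - (s * (η / ‖v i‖ ^ 2)) • v i‖ ^ 2 ≤ m * (η ^ 2 / R ^ 2) := by
          intro s hs hs'
          rw [norm_sub_sq_real, norm_smul, inner_smul_right, real_inner_comm]
          have e1 : (‖s * (η / ‖v i‖ ^ 2)‖ * ‖v i‖) ^ 2 = η ^ 2 / ‖v i‖ ^ 2 := by
            rw [mul_pow, Real.norm_eq_abs, sq_abs, mul_pow, hs, one_mul]
            field_simp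
          rw [e1]
          have e2 : s * (η / ‖v i‖ ^ 2) * ⟪v i, w⟫ = (η / ‖v i‖ ^ 2) * |⟪v i, w⟫| := by
            rw [← hs']; ring
          rw [e2]
          have e3 : η ^ 2 / ‖v i‖ ^ 2 ≤ (η / ‖v i‖ ^ 2) * |⟪v i, w⟫| := by
            have : η ^ 2 / ‖v i‖ ^ 2 = (η / ‖v i‖ ^ 2) * η := by ring
            rw [this]
            exact mul_le_mul_of_nonneg_left hbig.le (by positivity)
          have hw' : ‖w‖ ^ 2 ≤ m * (η ^ 2 / R ^ 2) + η ^ 2 / R ^ 2 := by
            have : ((m + 1 : ℕ) : ℝ) * (η ^ 2 / R ^ 2) = m * (η ^ 2 / R ^ 2) + η ^ 2 / R ^ 2 := by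
              push_cast; ring
            linarith
          linarith
        rcases le_or_gt 0 ⟪v i, w⟫ with h | h
        · refine ⟨true, ?_⟩
          have := key 1 (by norm_num) (by rw [one_mul, abs_of_nonneg h])
          rw [one_mul] at this
          exact this
        · refine ⟨false, ?_⟩
          have := key (-1) (by norm_num) (by rw [abs_of_neg h]; ring)
          rw [neg_one_mul, neg_smul] at this
          exact this
      obtain ⟨c, hc⟩ := ih _ hb
      refine ⟨Fin.cons (some (i, b)) c, fun j hj => ?_⟩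
      rw [Fin.sum_univ_succ, Fin.cons_zero]
      simp only [Fin.cons_succ]
      rw [← sub_sub]
      exact hc j hj

/-- The slowly varying functions used. -/
structure Slow (g : ℝ → ℝ) : Prop where
  nonneg : ∀ x, 0 ≤ g x
  le_one : ∀ x, g x ≤ 1
  lip : ∀ x y, 0 ≤ x → 0 ≤ y → |g x - g y| ≤ |x - y|
  slow : ∀ ε : ℝ, 0 < ε → ∃ R : ℝ, 1 ≤ R ∧ ∀ x y, R ≤ x → R ≤ y → x ≤ 4 * y → y ≤ 4 * x →
    |g x - g y| ≤ ε

/-- Labels of points. -/
abbrev Lab (n m K : ℕ) : Type :=
  Fin n × Fin (n + 1) × Bool × Fin (K + 1) × (Fin m → Option (Fin n × Bool))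

theorem card_lab (n m K : ℕ) : Fintype.card (Lab n m K) ≤ 2 * (K + 1) * (2 * n + 1) ^ (m + 2) := by
  have h1 : Fintype.card (Lab n m K) = n * ((n + 1) * (2 * ((K + 1) * (n * 2 + 1) ^ m))) := by
    simp [Lab]
  rw [h1]
  have h2 : n * (n + 1) ≤ (2 * n + 1) * (2 * n + 1) := Nat.mul_le_mul (by omega) (by omega)
  have e : n * 2 + 1 = 2 * n + 1 := by ring
  rw [e]
  calc n * ((n + 1) * (2 * ((K + 1) * (2 * n + 1) ^ m)))
      = (n * (n + 1)) * (2 * (K + 1) * (2 * n + 1) ^ m) := by ring
    _ ≤ ((2 * n + 1) * (2 * n + 1)) * (2 * (K + 1) * (2 * n + 1) ^ m) :=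
        Nat.mul_le_mul_right _ h2
    _ = 2 * (K + 1) * (2 * n + 1) ^ (m + 2) := by ring

/-- Every point has a label such that points with equal labels have close patterns. -/
theorem labels {g : ℝ → ℝ} (hg : Slow g) {ε : ℝ} (hε : 0 < ε) :
    ∃ m K : ℕ, ∀ (n : ℕ) (_ : 0 < n) (p : Fin n → E), ∃ L : E → Lab n m K,
      ∀ y y', L y = L y' → ∀ i, |g (‖p i - y‖ ^ 2) - g (‖p i - y'‖ ^ 2)| ≤ 3 * ε := by
  classical
  obtain ⟨R0, hR1, hslow⟩ := hg.slow ε hε
  -- work with norms at least R, R ^ 2 ≥ R0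
  set R : ℝ := R0 with hR
  have hRpos : 0 < R := by linarith
  have hRsq : ∀ x : ℝ, R ≤ x → R0 ≤ x ^ 2 := by
    intro x hx
    have : 1 ≤ x := by linarith
    nlinarith
  have slow2 : ∀ a b : ℝ, R ≤ a → R ≤ b → a ≤ 2 * b → b ≤ 2 * a →
      |g (a ^ 2) - g (b ^ 2)| ≤ ε := by
    intro a b ha hb hab hba
    refine hslow _ _ (hRsq a ha) (hRsq b hb) ?_ ?_
    · nlinarith
    · nlinarith
  set η : ℝ := ε / 4 with hη
  have hηp : 0 < η := by positivity
  obtain ⟨m, hm⟩ := exists_nat_ge (R ^ 2 / (η ^ 2 / (2 * R) ^ 2))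
  obtain ⟨K, hK⟩ := exists_nat_ge (max (1 / ε) (R * (4 * R / ε + 1)))
  refine ⟨m, K, ?_⟩
  intro n hn p
  have : Nonempty (Fin n) := ⟨⟨0, hn⟩⟩
  -- nearest point
  have hnear : ∀ y : E, ∃ i0 : Fin n, ∀ i, ‖p i0 - y‖ ≤ ‖p i - y‖ := by
    intro y
    obtain ⟨i0, _, h⟩ := Finset.exists_min_image Finset.univ (fun i => ‖p i - y‖)
      Finset.univ_nonempty
    exact ⟨i0, fun i => h i (Finset.mem_univ i)⟩
  choose i0 hi0 using hnear
  set s : E → ℝ := fun y => ‖p (i0 y) - y‖ with hs
  have hcode : ∀ y : E, ∃ c : Fin m → Option (Fin n × Bool), s y < R →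
      ∀ i, ‖p i - p (i0 y)‖ ≤ 2 * R →
        |⟪p i - p (i0 y), (y - p (i0 y)) - ∑ j, step η (fun i => p i - p (i0 y)) (c j)⟫| ≤ η := by
    intro y
    by_cases hy : s y < R
    · have hw : ‖y - p (i0 y)‖ ^ 2 ≤ m * (η ^ 2 / (2 * R) ^ 2) := by
        have h1 : ‖y - p (i0 y)‖ = s y := by rw [hs, norm_sub_rev]
        rw [h1]
        have h2 : s y ^ 2 ≤ R ^ 2 := pow_le_pow_left₀ (norm_nonneg _) hy.le 2
        have h3 : 0 < η ^ 2 / (2 * R) ^ 2 := by positivity
        have h4 : R ^ 2 ≤ m * (η ^ 2 / (2 * R) ^ 2) := (div_le_iff₀ h3).mp hm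
        linarith
      obtain ⟨c, hc⟩ := greedy hηp (fun i => p i - p (i0 y))
        {i | ‖p i - p (i0 y)‖ ≤ 2 * R} (fun i hi => hi) m _ hw
      exact ⟨c, fun _ i hi => hc i hi⟩
    · exact ⟨fun _ => none, fun h => absurd h hy⟩
  choose code hcode using hcode
  have hKb : ∀ x : ℝ, x ≤ K → ⌊x⌋₊ < K + 1 := by
    intro x hx
    rw [Nat.lt_succ_iff]
    exact Nat.floor_le_of_le hx
  have hK1 : 1 / ε ≤ K := (le_max_left _ _).trans hK
  have hK2 : R * (4 * R / ε + 1) ≤ K := (le_max_right _ _).trans hK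
  -- the bin
  have hbin : ∀ y : E, ∃ b : Fin (K + 1), (s y < R → (b : ℕ) = ⌊s y * (4 * R / ε + 1)⌋₊) ∧
      (R ≤ s y → (b : ℕ) = ⌊g (s y ^ 2) / ε⌋₊) := by
    intro y
    by_cases hy : s y < R
    · have h1 : s y * (4 * R / ε + 1) ≤ K := by
        have : s y * (4 * R / ε + 1) ≤ R * (4 * R / ε + 1) :=
          mul_le_mul_of_nonneg_right hy.le (by positivity)
        linarith
      exact ⟨⟨_, hKb _ h1⟩, fun _ => rfl, fun h => absurd hy (not_lt.mpr h)⟩
    · have h1 : g (s y ^ 2) / ε ≤ K := by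
        have : g (s y ^ 2) / ε ≤ 1 / ε := div_le_div_of_nonneg_right (hg.le_one _) hε.le
        linarith
      exact ⟨⟨_, hKb _ h1⟩, fun h => absurd h hy, fun _ => rfl⟩
  choose bin hbin1 hbin2 using hbin
  let cnt : E → Fin (n + 1) := fun y =>
    ⟨(Finset.univ.filter fun i => ‖p i - p (i0 y)‖ ≤ s y).card, by
      rw [Nat.lt_succ_iff]
      exact (Finset.card_le_univ _).trans (by simp)⟩
  refine ⟨fun y => (i0 y, cnt y, decide (s y < R), bin y, code y), ?_⟩
  intro y y' hL i
  simp only [Prod.mk.injEq] at hL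
  obtain ⟨hi, hcnt, hdec, hbin, hcod⟩ := hL
  have hsy : ‖p (i0 y') - y'‖ = s y' := rfl
  have hsy1 : ‖p (i0 y) - y‖ = s y := rfl
  have tri : ∀ z : E, ‖p i - z‖ ≤ ‖p i - p (i0 z)‖ + s z := by
    intro z
    have : p i - z = (p i - p (i0 z)) + (p (i0 z) - z) := by abel
    rw [this]
    exact norm_add_le _ _
  have tri2 : ∀ z : E, ‖p i - p (i0 z)‖ ≤ 2 * ‖p i - z‖ := by
    intro z
    have h1 : p i - p (i0 z) = (p i - z) - (p (i0 z) - z) := by abel
    have h2 := norm_sub_le (p i - z) (p (i0 z) - z)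
    rw [← h1] at h2
    have h3 := hi0 z i
    linarith
  have hlow : ∀ z : E, s z ≤ ‖p i - z‖ := fun z => hi0 z i
  by_cases hy : s y < R
  · have hy' : s y' < R := by
      have h1 : decide (s y' < R) = true := by rw [← hdec]; exact decide_eq_true hy
      exact of_decide_eq_true h1
    rcases le_or_gt (‖p i - p (i0 y)‖) (2 * R) with hd | hd
    · -- near zone, near point
      have c1 := hcode y hy i hd
      have c2 := hcode y' hy' i (by rw [← hi]; exact hd)
      rw [← hi, ← hcod] at c2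
      set v := p i - p (i0 y) with hv
      set w0 := ∑ j, step η (fun i => p i - p (i0 y)) (code y j) with hw0
      have e1 : ‖p i - y‖ ^ 2 = ‖v‖ ^ 2 - 2 * ⟪v, y - p (i0 y)⟫ + s y ^ 2 := by
        have : p i - y = v - (y - p (i0 y)) := by rw [hv]; abel
        rw [this, norm_sub_sq_real]
        have : ‖y - p (i0 y)‖ = s y := by rw [hs, norm_sub_rev]
        rw [this]
      have e2 : ‖p i - y'‖ ^ 2 = ‖v‖ ^ 2 - 2 * ⟪v, y' - p (i0 y)⟫ + s y' ^ 2 := by
        have : p i - y' = v - (y' - p (i0 y)) := by rw [hv]; abel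
        rw [this, norm_sub_sq_real]
        have : ‖y' - p (i0 y)‖ = s y' := by rw [hi, norm_sub_rev]
        rw [this]
      have e3 : |⟪v, y - p (i0 y)⟫ - ⟪v, y' - p (i0 y)⟫| ≤ 2 * η := by
        rw [inner_sub_right] at c1 c2
        rw [abs_le] at c1 c2 ⊢
        constructor <;> linarith [c1.1, c1.2, c2.1, c2.2]
      have e4 : |s y - s y'| ≤ 1 / (4 * R / ε + 1) := by
        have b1 := hbin1 y hy
        have b2 := hbin1 y' hy'
        rw [← hbin, b1] at b2
        set q := 4 * R / ε + 1 with hq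
        have hqp : 0 < q := by positivity
        have f1 := Nat.floor_le (show 0 ≤ s y * q by positivity)
        have f2 := Nat.lt_floor_add_one (s y * q)
        have f3 := Nat.floor_le (show 0 ≤ s y' * q by positivity)
        have f4 := Nat.lt_floor_add_one (s y' * q)
        rw [← b2] at f3 f4
        have h0 : |(s y - s y') * q| ≤ 1 := by
          rw [abs_le]
          constructor <;> nlinarith
        rw [le_div_iff₀ hqp]
        rwa [abs_mul, abs_of_pos hqp] at h0
      have e5 : |s y ^ 2 - s y' ^ 2| ≤ ε / 2 := by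
        have : s y ^ 2 - s y' ^ 2 = (s y - s y') * (s y + s y') := by ring
        rw [this, abs_mul]
        have h1 : |s y + s y'| ≤ 2 * R := by
          rw [abs_of_nonneg (add_nonneg (norm_nonneg _) (norm_nonneg _))]
          linarith
        have h2 : |s y - s y'| * |s y + s y'| ≤ 1 / (4 * R / ε + 1) * (2 * R) :=
          mul_le_mul e4 h1 (abs_nonneg _) (by positivity)
        have h3 : 1 / (4 * R / ε + 1) * (2 * R) ≤ ε / 2 := by
          rw [one_div_mul_eq_div, div_le_iff₀ (by positivity)]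
          have : ε / 2 * (4 * R / ε + 1) = 2 * R + ε / 2 := by field_simp; ring
          rw [this]; linarith
        linarith
      have e6 := hg.lip (‖p i - y‖ ^ 2) (‖p i - y'‖ ^ 2) (sq_nonneg _) (sq_nonneg _)
      refine e6.trans ?_
      rw [e1, e2]
      rw [abs_le] at e3 e5 ⊢
      constructor <;> linarith [e3.1, e3.2, e5.1, e5.2]
    · -- near zone, far point
      set d := ‖p i - p (i0 y)‖ with hd'
      have hd2 : ‖p i - p (i0 y')‖ = d := by rw [← hi]
      have t1 := tri y
      have t2 := tri y'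
      have t3 := tri2 y
      have t4 := tri2 y'
      rw [hd2] at t2 t4
      have g1 := slow2 (‖p i - y‖) d (by linarith) (by linarith) (by linarith) (by linarith)
      have g2 := slow2 (‖p i - y'‖) d (by linarith) (by linarith) (by linarith) (by linarith)
      rw [abs_le] at g1 g2 ⊢
      constructor <;> linarith [g1.1, g1.2, g2.1, g2.2]
  · have hy' : ¬ s y' < R := by
      have h1 : decide (s y' < R) = false := by rw [← hdec]; exact decide_eq_false hy
      exact of_decide_eq_false h1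
    push Not at hy hy'
    -- the sets of close points agree
    have hset : ‖p i - p (i0 y)‖ ≤ s y ↔ ‖p i - p (i0 y)‖ ≤ s y' := by
      have hc : (Finset.univ.filter fun i => ‖p i - p (i0 y)‖ ≤ s y).card =
          (Finset.univ.filter fun i => ‖p i - p (i0 y)‖ ≤ s y').card := by
        have := congrArg Fin.val hcnt
        simp only [cnt] at this
        rw [← hi] at this
        exact this
      rcases le_total (s y) (s y') with h | h
      · have hsub : (Finset.univ.filter fun i => ‖p i - p (i0 y)‖ ≤ s y) ⊆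
            (Finset.univ.filter fun i => ‖p i - p (i0 y)‖ ≤ s y') := by
          intro j hj
          rw [Finset.mem_filter] at hj ⊢
          exact ⟨hj.1, hj.2.trans h⟩
        have heq := Finset.eq_of_subset_of_card_le hsub hc.ge
        have := Finset.ext_iff.mp heq i
        simpa using this
      · have hsub : (Finset.univ.filter fun i => ‖p i - p (i0 y)‖ ≤ s y') ⊆
            (Finset.univ.filter fun i => ‖p i - p (i0 y)‖ ≤ s y) := by
          intro j hj
          rw [Finset.mem_filter] at hj ⊢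
          exact ⟨hj.1, hj.2.trans h⟩
        have heq := Finset.eq_of_subset_of_card_le hsub hc.le
        have := Finset.ext_iff.mp heq i
        simpa using this.symm
    have t1 := tri y
    have t2 := tri y'
    have t3 := tri2 y
    have t4 := tri2 y'
    have t5 := hlow y
    have t6 := hlow y'
    rw [← hi] at t2 t4
    by_cases hd : ‖p i - p (i0 y)‖ ≤ s y
    · have hd' := hset.mp hd
      have g1 := slow2 (‖p i - y‖) (s y) (by linarith) (by linarith) (by linarith) (by linarith)
      have g2 := slow2 (‖p i - y'‖) (s y') (by linarith) (by linarith) (by linarith)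
        (by linarith)
      have g3 : |g (s y ^ 2) - g (s y' ^ 2)| ≤ ε := by
        have b1 := hbin2 y hy
        have b2 := hbin2 y' hy'
        rw [← hbin, b1] at b2
        have f1 := Nat.floor_le (show 0 ≤ g (s y ^ 2) / ε from div_nonneg (hg.nonneg _) hε.le)
        have f2 := Nat.lt_floor_add_one (g (s y ^ 2) / ε)
        have f3 := Nat.floor_le (show 0 ≤ g (s y' ^ 2) / ε from div_nonneg (hg.nonneg _) hε.le)
        have f4 := Nat.lt_floor_add_one (g (s y' ^ 2) / ε)
        rw [← b2] at f3 f4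
        have h1 : |g (s y ^ 2) / ε - g (s y' ^ 2) / ε| ≤ 1 := by
          rw [abs_le]
          constructor <;> linarith
        rw [← sub_div, abs_div, abs_of_pos hε, div_le_iff₀ hε, one_mul] at h1
        exact h1
      rw [abs_le] at g1 g2 g3 ⊢
      constructor <;> linarith [g1.1, g1.2, g2.1, g2.2, g3.1, g3.2]
    · have hd' : ¬ ‖p i - p (i0 y)‖ ≤ s y' := fun h => hd (hset.mpr h)
      push Not at hd hd'
      set d := ‖p i - p (i0 y)‖ with hdd
      have g1 := slow2 (‖p i - y‖) d (by linarith) (by linarith) (by linarith) (by linarith)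
      have g2 := slow2 (‖p i - y'‖) d (by linarith) (by linarith) (by linarith) (by linarith)
      rw [abs_le] at g1 g2 ⊢
      constructor <;> linarith [g1.1, g1.2, g2.1, g2.2]

/-- The number of separated patterns is bounded by a polynomial. -/
theorem pattern_card {g : ℝ → ℝ} (hg : Slow g) {ε : ℝ} (hε : 0 < ε) :
    ∃ C m : ℕ, ∀ (n : ℕ) (p : Fin n → E) {Y : Type} (y : Y → E) (F : Finset Y),
      (∀ a ∈ F, ∀ b ∈ F, a ≠ b → ∃ i, ε ≤ |g (‖p i - y a‖ ^ 2) - g (‖p i - y b‖ ^ 2)|) →
      F.card ≤ C * (2 * n + 1) ^ m := by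
  classical
  obtain ⟨m, K, h⟩ := labels (E := E) hg (show 0 < ε / 4 by positivity)
  refine ⟨2 * (K + 1), m + 2, ?_⟩
  intro n p Y y F hF
  rcases Nat.eq_zero_or_pos n with rfl | hn
  · have h1 : F.card ≤ 1 := by
      rw [Finset.card_le_one]
      intro a ha b hb
      by_contra hab
      obtain ⟨i, _⟩ := hF a ha b hb hab
      exact i.elim0
    calc F.card ≤ 1 := h1
      _ ≤ 2 * (K + 1) * (2 * 0 + 1) ^ (m + 2) := by simp; omega
  · obtain ⟨L, hL⟩ := h n hn p
    refine le_trans ?_ (card_lab n m K)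
    rw [← Finset.card_univ]
    apply Finset.card_le_card_of_injOn (fun a => L (y a)) (fun _ _ => Finset.mem_coe.mpr
      (Finset.mem_univ _))
    intro a ha b hb hab
    by_contra hne
    obtain ⟨i, hi⟩ := hF a ha b hb hne
    have h2 := hL (y a) (y b) hab i
    linarith

end Q33.ME
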