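import Pool.Agent.Q33.ME.Pattern

/-!
The slowly oscillating function, and the sequence `n ↦ g (‖b n‖ ^ 2)` for an unbounded recurrent
cocycle `b`.
-/

namespace Q33.ME

open Filter Topology

/-- the slowly oscillating function -/
noncomputable def G (x : ℝ) : ℝ := (1 - Real.cos (Real.log (1 + Real.log (1 + |x|)))) / 2

theorem log_sub_le {a b : ℝ} (ha : 0 < a) (hab : a ≤ b) : Real.log b - Real.log a ≤ (b - a) / a := by
  have hb : 0 < b := ha.trans_le hab
  rw [← Real.log_div hb.ne' ha.ne']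
  have h := Real.log_le_sub_one_of_pos (div_pos hb ha)
  have e : b / a - 1 = (b - a) / a := by field_simp
  rw [← e]; exact h

theorem abs_log_sub {a b r : ℝ} (hr : 0 < r) (ha : r ≤ a) (hb : r ≤ b) :
    |Real.log a - Real.log b| ≤ |a - b| / r := by
  wlog h : b ≤ a generalizing a b with H
  · rw [abs_sub_comm, abs_sub_comm a b]
    exact H hb ha (le_of_not_ge h)
  have hb0 : 0 < b := hr.trans_le hb
  have h1 := log_sub_le hb0 h
  have h2 : Real.log b ≤ Real.log a := Real.log_le_log hb0 h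
  rw [abs_of_nonneg (by linarith), abs_of_nonneg (by linarith)]
  refine h1.trans ?_
  exact div_le_div_of_nonneg_left (by linarith) hr hb

theorem G_sub (x y : ℝ) : |G x - G y| ≤
    |Real.log (1 + Real.log (1 + |x|)) - Real.log (1 + Real.log (1 + |y|))| / 2 := by
  have h := Real.abs_cos_sub_cos_le (Real.log (1 + Real.log (1 + |x|)))
    (Real.log (1 + Real.log (1 + |y|)))
  unfold G
  have e : (1 - Real.cos (Real.log (1 + Real.log (1 + |x|)))) / 2 -
      (1 - Real.cos (Real.log (1 + Real.log (1 + |y|)))) / 2 =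
      -(Real.cos (Real.log (1 + Real.log (1 + |x|))) -
        Real.cos (Real.log (1 + Real.log (1 + |y|)))) / 2 := by ring
  rw [e, abs_div, abs_neg, abs_of_pos (show (0 : ℝ) < 2 by norm_num)]
  linarith

theorem slow_G : Slow G where
  nonneg x := by
    unfold G
    have := Real.cos_le_one (Real.log (1 + Real.log (1 + |x|)))
    linarith
  le_one x := by
    unfold G
    have := Real.neg_one_le_cos (Real.log (1 + Real.log (1 + |x|)))
    linarith
  lip x y hx hy := by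
    have h := G_sub x y
    rw [abs_of_nonneg hx, abs_of_nonneg hy] at h
    have lx : 0 ≤ Real.log (1 + x) := Real.log_nonneg (by linarith)
    have ly : 0 ≤ Real.log (1 + y) := Real.log_nonneg (by linarith)
    have h1 := abs_log_sub (a := 1 + Real.log (1 + x)) (b := 1 + Real.log (1 + y)) one_pos
      (by linarith) (by linarith)
    have h2 := abs_log_sub (a := 1 + x) (b := 1 + y) one_pos (by linarith) (by linarith)
    rw [div_one] at h1 h2
    have e1 : (1 + Real.log (1 + x)) - (1 + Real.log (1 + y)) =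
      Real.log (1 + x) - Real.log (1 + y) := by ring
    have e2 : (1 + x) - (1 + y) = x - y := by ring
    rw [e1] at h1
    rw [e2] at h2
    have := abs_nonneg (x - y)
    linarith
  slow ε hε := by
    obtain ⟨R, hR1, hR2⟩ : ∃ R : ℝ, 1 ≤ R ∧ 4 / ε ≤ Real.log (1 + R) := by
      refine ⟨max 1 (Real.exp (4 / ε)), le_max_left _ _, ?_⟩
      have h1 : Real.exp (4 / ε) ≤ 1 + max 1 (Real.exp (4 / ε)) := by
        have := le_max_right 1 (Real.exp (4 / ε))
        linarith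
      have h2 := Real.log_le_log (Real.exp_pos _) h1
      rwa [Real.log_exp] at h2
    refine ⟨R, hR1, ?_⟩
    intro x y hx hy hxy hyx
    have h := G_sub x y
    have hx0 : 0 ≤ x := by linarith
    have hy0 : 0 ≤ y := by linarith
    rw [abs_of_nonneg hx0, abs_of_nonneg hy0] at h
    have lx : Real.log (1 + R) ≤ Real.log (1 + x) := Real.log_le_log (by linarith) (by linarith)
    have ly : Real.log (1 + R) ≤ Real.log (1 + y) := Real.log_le_log (by linarith) (by linarith)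
    have hRpos : 0 < 1 + Real.log (1 + R) := by
      have : 0 < 4 / ε := by positivity
      linarith
    have h1 := abs_log_sub (a := 1 + Real.log (1 + x)) (b := 1 + Real.log (1 + y)) hRpos
      (by linarith) (by linarith)
    have e1 : (1 + Real.log (1 + x)) - (1 + Real.log (1 + y)) =
      Real.log (1 + x) - Real.log (1 + y) := by ring
    rw [e1] at h1
    have hl : |Real.log (1 + x) - Real.log (1 + y)| ≤ 3 := by
      rw [abs_le]
      constructor
      · have h3 : Real.log (1 + y) ≤ Real.log (4 * (1 + x)) :=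
          Real.log_le_log (by linarith) (by linarith)
        rw [Real.log_mul (by norm_num) (by linarith)] at h3
        have h4 : Real.log 4 ≤ 4 - 1 := Real.log_le_sub_one_of_pos (by norm_num)
        linarith
      · have h3 : Real.log (1 + x) ≤ Real.log (4 * (1 + y)) :=
          Real.log_le_log (by linarith) (by linarith)
        rw [Real.log_mul (by norm_num) (by linarith)] at h3
        have h4 : Real.log 4 ≤ 4 - 1 := Real.log_le_sub_one_of_pos (by norm_num)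
        linarith
    have h5 : |Real.log (1 + x) - Real.log (1 + y)| / (1 + Real.log (1 + R)) ≤ ε := by
      rw [div_le_iff₀ hRpos]
      have h6 : 4 ≤ ε * Real.log (1 + R) := by
        rw [div_le_iff₀ hε] at hR2
        linarith
      nlinarith
    linarith

/-- `G` vanishes at arbitrarily large values. -/
theorem G_zero (B : ℝ) : ∃ x, B ≤ x ∧ 0 ≤ x ∧ G x = 0 := by
  obtain ⟨k, hk⟩ := exists_nat_ge B
  have hpi := Real.pi_gt_three
  set u : ℝ := (k : ℝ) * (2 * Real.pi) with hu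
  have hk0 : (0 : ℝ) ≤ k := Nat.cast_nonneg k
  have hu0 : 0 ≤ u := by positivity
  have h1 : u + 1 ≤ Real.exp u := Real.add_one_le_exp u
  set v : ℝ := Real.exp u - 1 with hv
  have h2 : v + 1 ≤ Real.exp v := Real.add_one_le_exp v
  have h3 : (k : ℝ) ≤ u := by rw [hu]; nlinarith
  have hx0 : 0 ≤ Real.exp v - 1 := by linarith
  refine ⟨Real.exp v - 1, by linarith, hx0, ?_⟩
  unfold G
  rw [abs_of_nonneg hx0]
  have e1 : 1 + (Real.exp v - 1) = Real.exp v := by ring
  rw [e1, Real.log_exp]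
  have e2 : 1 + v = Real.exp u := by rw [hv]; ring
  rw [e2, Real.log_exp, hu, Real.cos_nat_mul_two_pi]
  ring

/-- `G` takes the value `1` at arbitrarily large values. -/
theorem G_one (B : ℝ) : ∃ x, B ≤ x ∧ 0 ≤ x ∧ G x = 1 := by
  obtain ⟨k, hk⟩ := exists_nat_ge B
  have hpi := Real.pi_gt_three
  set u : ℝ := Real.pi + (k : ℝ) * (2 * Real.pi) with hu
  have hk0 : (0 : ℝ) ≤ k := Nat.cast_nonneg k
  have hu0 : 0 ≤ u := by positivity
  have h1 : u + 1 ≤ Real.exp u := Real.add_one_le_exp u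
  set v : ℝ := Real.exp u - 1 with hv
  have h2 : v + 1 ≤ Real.exp v := Real.add_one_le_exp v
  have h3 : (k : ℝ) ≤ u := by rw [hu]; nlinarith
  have hx0 : 0 ≤ Real.exp v - 1 := by linarith
  refine ⟨Real.exp v - 1, by linarith, hx0, ?_⟩
  unfold G
  rw [abs_of_nonneg hx0]
  have e1 : 1 + (Real.exp v - 1) = Real.exp v := by ring
  rw [e1, Real.log_exp]
  have e2 : 1 + v = Real.exp u := by rw [hv]; ring
  rw [e2, Real.log_exp, hu, Real.cos_add_nat_mul_two_pi, Real.cos_pi]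
  ring

/-- A recurrent unbounded cocycle. -/
structure Coc {E : Type*} [NormedAddCommGroup E] (b : ℤ → E) : Prop where
  zero : b 0 = 0
  inv : ∀ n m, ‖b n - b m‖ = ‖b (n - m)‖
  unbdd : ∀ B : ℝ, ∃ n : ℕ, B ≤ ‖b n‖
  recu : ∀ ε : ℝ, 0 < ε → ∀ N0 : ℕ, ∃ N : ℕ, N0 ≤ N ∧ ‖b N‖ < ε

namespace Coc

variable {E : Type*} [NormedAddCommGroup E] {b : ℤ → E} (hb : Coc b)

include hb

theorem diff (n m : ℤ) : |‖b (n + m)‖ - ‖b m‖| ≤ ‖b n‖ := by
  have h := hb.inv (n + m) m
  rw [add_sub_cancel_right] at h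
  rw [← h]
  exact abs_norm_sub_norm_le _ _

theorem neg (n : ℤ) : ‖b (-n)‖ = ‖b n‖ := by
  have h := hb.inv 0 n
  rw [hb.zero, zero_sub, zero_sub, norm_neg] at h
  exact h.symm

theorem add_le (n m : ℤ) : ‖b (n + m)‖ ≤ ‖b n‖ + ‖b m‖ := by
  have := (abs_le.mp (hb.diff n m)).2
  linarith

theorem le_mul (n : ℕ) : ‖b n‖ ≤ n * ‖b 1‖ := by
  induction n with
  | zero => simp [hb.zero]
  | succ n ih =>
    have h := hb.add_le n 1
    push_cast
    linarith

theorem diff_nat (n j : ℕ) : |‖b ((n + j : ℕ) : ℤ)‖ - ‖b n‖| ≤ j * ‖b 1‖ := by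
  have h := hb.diff j n
  have e : ((n + j : ℕ) : ℤ) = (j : ℤ) + n := by push_cast; ring
  rw [e]
  exact h.trans (hb.le_mul j)

/-- hitting times. -/
theorem hit (t : ℝ) (ht : 0 < t) : ∃ s : ℕ, 1 ≤ s ∧ t ≤ ‖b s‖ ∧ ‖b s‖ ≤ t + ‖b 1‖ ∧
    ∀ n < s, ‖b n‖ < t := by
  classical
  have hex := hb.unbdd t
  refine ⟨Nat.find hex, ?_, Nat.find_spec hex, ?_, fun n hn => ?_⟩
  · by_contra h0
    have h1 : Nat.find hex = 0 := by omega
    have h2 := Nat.find_spec hex
    rw [h1] at h2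
    simp only [Nat.cast_zero, hb.zero, norm_zero] at h2
    linarith
  · have hpos : Nat.find hex ≠ 0 := by
      intro h1
      have h2 := Nat.find_spec hex
      rw [h1] at h2
      simp only [Nat.cast_zero, hb.zero, norm_zero] at h2
      linarith
    obtain ⟨m, hm⟩ := Nat.exists_eq_succ_of_ne_zero hpos
    have h3 : ‖b m‖ < t := by
      have := Nat.find_min hex (show m < Nat.find hex by omega)
      exact not_le.mp this
    rw [hm]
    have h4 := hb.diff_nat m 1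
    rw [Nat.cast_one, one_mul] at h4
    have := (abs_le.mp h4).2
    have e : (m.succ : ℕ) = m + 1 := rfl
    rw [e]
    linarith
  · exact not_le.mp (Nat.find_min hex hn)

/-- the sequence is recurrent. -/
theorem recur (ε : ℝ) (hε : 0 < ε) (J N0 : ℕ) : ∃ N ≥ N0, ∀ j ≤ J,
    |G (‖b ((N + j : ℕ) : ℤ)‖ ^ 2) - G (‖b j‖ ^ 2)| < ε := by
  set L : ℝ := J * ‖b 1‖ with hL
  have hL0 : 0 ≤ L := by positivity
  set δ : ℝ := min 1 (ε / (2 * (1 + 2 * L))) with hδ
  have hδ0 : 0 < δ := by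
    apply lt_min one_pos; positivity
  have hδ1 : δ ≤ 1 := min_le_left _ _
  have hδ2 : δ * (1 + 2 * L) ≤ ε / 2 := by
    have h1 : δ ≤ ε / (2 * (1 + 2 * L)) := min_le_right _ _
    have h2 : ε / (2 * (1 + 2 * L)) * (1 + 2 * L) = ε / 2 := by field_simp
    rw [← h2]
    exact mul_le_mul_of_nonneg_right h1 (by positivity)
  obtain ⟨N, hN, hNε⟩ := hb.recu δ hδ0 N0
  refine ⟨N, hN, fun j hj => ?_⟩
  have h1 := slow_G.lip (‖b ((N + j : ℕ) : ℤ)‖ ^ 2) (‖b j‖ ^ 2) (by positivity) (by positivity)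
  have h2 := hb.diff N j
  have e : ((N + j : ℕ) : ℤ) = (N : ℤ) + j := by push_cast; ring
  rw [e] at h1 ⊢
  have h3 : ‖b j‖ ≤ L := (hb.le_mul j).trans (by
    rw [hL]
    have : (j : ℝ) ≤ J := by exact_mod_cast hj
    exact mul_le_mul_of_nonneg_right this (norm_nonneg _))
  have h4 : |‖b ((N : ℤ) + j)‖ ^ 2 - ‖b j‖ ^ 2| ≤ δ * (1 + 2 * L) := by
    have e2 : ‖b ((N : ℤ) + j)‖ ^ 2 - ‖b j‖ ^ 2 =
      (‖b ((N : ℤ) + j)‖ - ‖b j‖) * (‖b ((N : ℤ) + j)‖ + ‖b j‖) := by ring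
    rw [e2, abs_mul]
    have h5 : |‖b ((N : ℤ) + j)‖ + ‖b j‖| ≤ 1 + 2 * L := by
      rw [abs_of_nonneg (by positivity)]
      have := (abs_le.mp h2).2
      linarith
    exact mul_le_mul (h2.trans hNε.le) h5 (abs_nonneg _) hδ0.le
  linarith

/-- zero windows. -/
theorem windows (ε : ℝ) (hε : 0 < ε) (J : ℕ) : ∃ n : ℕ, ∀ j ≤ J,
    G (‖b ((n + j : ℕ) : ℤ)‖ ^ 2) < ε := by
  obtain ⟨R, hR1, hR⟩ := slow_G.slow (ε / 2) (by positivity)
  set A : ℝ := 2 * ((J + 1) * ‖b 1‖) with hA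
  have hA0 : 0 ≤ A := by positivity
  obtain ⟨x, hxB, hx0, hx⟩ := G_zero (4 * R + A ^ 2)
  set t : ℝ := Real.sqrt x with ht
  have htx : t ^ 2 = x := Real.sq_sqrt hx0
  have hxpos : 0 < x := by nlinarith
  have htpos : 0 < t := Real.sqrt_pos.mpr hxpos
  have hAt : A ≤ t := by
    apply Real.le_sqrt_of_sq_le
    linarith
  obtain ⟨s, _, hs1, hs2, _⟩ := hb.hit t htpos
  refine ⟨s, fun j hj => ?_⟩
  have h1 := abs_le.mp (hb.diff_nat s j)
  have hj' : (j : ℝ) * ‖b 1‖ ≤ J * ‖b 1‖ := by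
    have : (j : ℝ) ≤ J := by exact_mod_cast hj
    exact mul_le_mul_of_nonneg_right this (norm_nonneg _)
  have h2 : t / 2 ≤ ‖b ((s + j : ℕ) : ℤ)‖ := by
    have := norm_nonneg (b 1)
    rw [hA] at hAt
    nlinarith [h1.1]
  have h3 : ‖b ((s + j : ℕ) : ℤ)‖ ≤ 2 * t := by
    rw [hA] at hAt
    nlinarith [h1.2]
  have h4 : x ≤ 4 * ‖b ((s + j : ℕ) : ℤ)‖ ^ 2 := by
    rw [← htx]; nlinarith
  have h5 : ‖b ((s + j : ℕ) : ℤ)‖ ^ 2 ≤ 4 * x := by
    rw [← htx]; nlinarith [norm_nonneg (b ((s + j : ℕ) : ℤ))]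
  have h6 := hR (‖b ((s + j : ℕ) : ℤ)‖ ^ 2) x (by nlinarith) (by nlinarith) h5 h4
  rw [hx, sub_zero] at h6
  have := (le_abs_self _).trans h6
  linarith

/-- large averages. -/
theorem averages (N0 : ℕ) : ∃ N ≥ N0, (N : ℝ) / 8 ≤
    ∑ i ∈ Finset.range N, G (‖b (i : ℤ)‖ ^ 2) := by
  obtain ⟨R, hR1, hR⟩ := slow_G.slow (1 / 4) (by norm_num)
  set A : ℝ := (N0 + 1) * ‖b 1‖ with hA
  have hA0 : 0 ≤ A := by positivity
  obtain ⟨x, hxB, hx0, hx⟩ := G_one (4 * R + A ^ 2)
  set t : ℝ := Real.sqrt x with ht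
  have htx : t ^ 2 = x := Real.sq_sqrt hx0
  have hxpos : 0 < x := by nlinarith
  have htpos : 0 < t := Real.sqrt_pos.mpr hxpos
  have hAt : A < t := by
    apply Real.lt_sqrt_of_sq_lt
    linarith
  obtain ⟨s, _, hs1, hs2, hs3⟩ := hb.hit t htpos
  have hsN : N0 < s := by
    by_contra hle
    push Not at hle
    have h1 := hb.le_mul s
    have h2 : (s : ℝ) ≤ N0 := by exact_mod_cast hle
    have h3 : (s : ℝ) * ‖b 1‖ ≤ N0 * ‖b 1‖ := mul_le_mul_of_nonneg_right h2 (norm_nonneg _)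
    have h4 := norm_nonneg (b 1)
    rw [hA] at hAt
    nlinarith
  have hb1 : ‖b 1‖ ≤ t := by
    rw [hA] at hAt
    have h4 := norm_nonneg (b 1)
    have h5 : (0 : ℝ) ≤ N0 := Nat.cast_nonneg _
    nlinarith
  set M : ℝ := ‖b (s : ℤ)‖ with hM
  have hM0 : 0 < M := by linarith
  have hMt : M ≤ 2 * t := by linarith
  -- values of `G` near `M`
  have hGM : 3 / 4 ≤ G (M ^ 2) := by
    have h6 := hR (M ^ 2) x (by nlinarith) (by nlinarith) (by rw [← htx]; nlinarith)
      (by rw [← htx]; nlinarith)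
    rw [hx] at h6
    have := (abs_le.mp h6).1
    linarith
  have hgood : ∀ y : ℝ, M / 2 ≤ y → y ≤ 2 * M → 1 / 2 ≤ G (y ^ 2) := by
    intro y h1 h2
    have h6 := hR (y ^ 2) (M ^ 2) (by nlinarith) (by nlinarith) (by nlinarith)
      (by nlinarith)
    have := (abs_le.mp h6).1
    linarith
  refine ⟨s + s, by omega, ?_⟩
  rw [Finset.sum_range_add]
  rw [← Finset.sum_add_distrib]
  have hterm : ∀ i ∈ Finset.range s, (1 / 2 : ℝ) ≤
      G (‖b (i : ℤ)‖ ^ 2) + G (‖b ((s + i : ℕ) : ℤ)‖ ^ 2) := by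
    intro i hi
    rw [Finset.mem_range] at hi
    have hi1 := hs3 i hi
    have e : ((s + i : ℕ) : ℤ) = (s : ℤ) + i := by push_cast; ring
    rw [e]
    have hup := hb.add_le s i
    have hn1 := slow_G.nonneg (‖b (i : ℤ)‖ ^ 2)
    have hn2 := slow_G.nonneg (‖b ((s : ℤ) + i)‖ ^ 2)
    by_cases h : M / 2 ≤ ‖b (i : ℤ)‖
    · have := hgood _ h (by linarith)
      linarith
    · push Not at h
      have h2 : M ≤ ‖b ((s : ℤ) + i)‖ + ‖b (i : ℤ)‖ := by
        have h3 := hb.add_le ((s : ℤ) + i) (-i)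
        rw [hb.neg, add_neg_cancel_right] at h3
        exact h3
      have := hgood ‖b ((s : ℤ) + i)‖ (by linarith) (by linarith)
      linarith
  have := Finset.sum_le_sum hterm
  rw [Finset.sum_const, Finset.card_range, nsmul_eq_mul] at this
  push_cast
  refine le_trans ?_ this
  have h5 : (0 : ℝ) ≤ s := Nat.cast_nonneg _
  linarith

/-- few patterns. -/
theorem patterns [InnerProductSpace ℝ E] (ε : ℝ) (hε : 0 < ε) : ∃ C m : ℕ, ∀ (n : ℕ)
    (p : Fin n → ℕ) {X : Type} (t : X → ℕ) (F : Finset X),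
      (∀ a ∈ F, ∀ c ∈ F, a ≠ c → ∃ i, ε ≤
        |G (‖b ((t a + p i : ℕ) : ℤ)‖ ^ 2) - G (‖b ((t c + p i : ℕ) : ℤ)‖ ^ 2)|) →
      F.card ≤ C * (2 * n + 1) ^ m := by
  obtain ⟨C, m, h⟩ := pattern_card (E := E) slow_G hε
  refine ⟨C, m, ?_⟩
  intro n p X t F hF
  have key : ∀ (a : X) (i : Fin n), ‖b ((t a + p i : ℕ) : ℤ)‖ = ‖b (p i : ℤ) - b (-(t a : ℤ))‖ := by
    intro a i
    rw [hb.inv]
    congr 2
    push_cast; ring
  apply h n (fun i => b (p i : ℤ)) (fun a => b (-(t a : ℤ))) F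
  intro a ha c hc hac
  obtain ⟨i, hi⟩ := hF a ha c hc hac
  refine ⟨i, ?_⟩
  rw [key, key] at hi
  exact hi

end Coc

end Q33.ME
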