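import Pool.Agent.Q33.ME.Dyn
import Pool.Agent.Q33.ME.Lp

/-!
The orbit closure of a sequence in `[0,1]` under the shift.
-/

namespace Q33.ME

open Filter Topology

/-- the full space of sequences -/
abbrev Seq : Type := ℕ → ↥(Set.Icc (0 : ℝ) 1)

/-- the shift -/
def shift (x : Seq) : Seq := fun i => x (i + 1)

theorem continuous_shift : Continuous shift :=
  continuous_pi fun i => continuous_apply (i + 1)

theorem shift_iterate (n : ℕ) (x : Seq) (i : ℕ) : (shift^[n] x) i = x (i + n) := by
  induction n generalizing x with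
  | zero => rfl
  | succ n ih =>
    rw [Function.iterate_succ_apply, ih]
    change x (i + n + 1) = x (i + (n + 1))
    rw [add_assoc]

/-- the sequence -/
noncomputable def ff (n : ℕ) : ℝ := G (‖bb n‖ ^ 2)

/-- the point -/
noncomputable def xx : Seq := fun n => ⟨ff n, slow_G.nonneg _, slow_G.le_one _⟩

/-- the orbit closure -/
abbrev OC : Type := ↥(closure (Set.range fun n : ℕ => shift^[n] xx))

theorem shift_mem (x : OC) : shift x.1 ∈ closure (Set.range fun n : ℕ => shift^[n] xx) := by
  have h : Set.MapsTo shift (Set.range fun n : ℕ => shift^[n] xx)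
      (Set.range fun n : ℕ => shift^[n] xx) := by
    rintro _ ⟨n, rfl⟩
    exact ⟨n + 1, Function.iterate_succ_apply' shift n xx⟩
  exact h.closure continuous_shift x.2

/-- the shift on the orbit closure -/
noncomputable def TT (x : OC) : OC := ⟨shift x.1, shift_mem x⟩

theorem continuous_TT : Continuous TT :=
  (continuous_shift.comp continuous_subtype_val).subtype_mk _

theorem TT_iterate (n : ℕ) (x : OC) : (TT^[n] x).1 = shift^[n] x.1 := by
  induction n generalizing x with
  | zero => rfl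
  | succ n ih => rw [Function.iterate_succ_apply, ih, Function.iterate_succ_apply]; rfl

/-- the zeroth coordinate -/
noncomputable def cc (x : OC) : ℝ := ((x.1 0 : ↥(Set.Icc (0 : ℝ) 1)) : ℝ)

theorem continuous_cc : Continuous cc :=
  continuous_subtype_val.comp ((continuous_apply 0).comp continuous_subtype_val)

theorem cc_iterate (n : ℕ) (x : OC) : cc (TT^[n] x) = ((x.1 n : ↥(Set.Icc (0 : ℝ) 1)) : ℝ) := by
  unfold cc
  rw [TT_iterate, shift_iterate, zero_add]

/-- the base point -/
noncomputable def pp : OC := ⟨xx, subset_closure ⟨0, rfl⟩⟩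

theorem cc_pp (n : ℕ) : cc (TT^[n] pp) = ff n := cc_iterate n pp

theorem cc_sep (x y : OC) (h : ∀ i, cc (TT^[i] x) = cc (TT^[i] y)) : x = y := by
  apply Subtype.ext
  funext i
  apply Subtype.ext
  have := h i
  rwa [cc_iterate, cc_iterate] at this

theorem pp_dense (U : Set OC) (hU : IsOpen U) (hne : U.Nonempty) : ∃ n, TT^[n] pp ∈ U := by
  obtain ⟨V, hV, rfl⟩ := isOpen_induced_iff.mp hU
  obtain ⟨z, hz⟩ := hne
  obtain ⟨w, hwV, n, hn⟩ := mem_closure_iff.mp z.2 V hV hz
  refine ⟨n, ?_⟩
  change (TT^[n] pp).1 ∈ V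
  rw [TT_iterate]
  have : shift^[n] pp.1 = w := hn
  rw [this]
  exact hwV

instance : CompactSpace OC := isCompact_iff_compactSpace.mp isClosed_closure.isCompact

/-- The counterexample. -/
theorem counterexample : ∃ (X : Type) (_ : MetricSpace X) (_ : CompactSpace X) (T : X → X),
    Continuous T ∧
    (∀ U V : Set X, IsOpen U → IsOpen V → U.Nonempty → V.Nonempty →
        ∃ n : ℕ, 1 ≤ n ∧ (V ∩ T^[n] ⁻¹' U).Nonempty) ∧
      (∀ a : ℕ → ℕ, ∀ ε : ℝ, 0 < ε → ∀ δ : ℝ, 0 < δ →
        ∀ᶠ n in atTop, ∀ F : Finset X,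
          (∀ x ∈ F, ∀ y ∈ F, x ≠ y → ∃ i < n, ε ≤ dist (T^[a i] x) (T^[a i] y)) →
          (F.card : ℝ) ≤ Real.exp (δ * n)) ∧
      ¬ ∀ ε : ℝ, 0 < ε → ∃ δ : ℝ, 0 < δ ∧ ∀ x y : X, dist x y < δ →
        ∀ᶠ n in atTop,
          (∑ i ∈ Finset.range n, dist (T^[i] x) (T^[i] y)) / (n : ℝ) < ε := by
  letI : MetricSpace OC := TopologicalSpace.metrizableSpaceMetric OC
  refine ⟨OC, inferInstance, inferInstance, TT, continuous_TT, ?_, ?_, ?_⟩
  · intro U V hU hV hU' hV'
    refine transitive TT continuous_TT cc continuous_cc pp ff cc_pp pp_dense cc_sep ?_ U V hU hV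
      hU' hV'
    intro ε hε J N0
    exact coc_bb.recur ε hε J N0
  · intro a ε hε δ hδ
    refine null TT continuous_TT cc continuous_cc pp ff cc_pp pp_dense cc_sep ?_ a ε hε δ hδ
    intro ε' hε'
    obtain ⟨C, m, h⟩ := coc_bb.patterns ε' hε'
    exact ⟨C, m, fun n p t F hF => h n p t F hF⟩
  · refine not_mean TT continuous_TT cc continuous_cc pp ff cc_pp pp_dense cc_sep
      (fun n => slow_G.nonneg _) (fun n => slow_G.le_one _) ?_ ?_
    · intro ε hε J
      exact coc_bb.windows ε hε J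
    · intro N0
      exact coc_bb.averages N0

end Q33.ME
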